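import Mathlib
import Pool.Graph.R_seed8.Results.MP_6db48f_an.GapLabelsDyadic

set_option autoImplicit false

/-! MP_6db48f_an: the label of a gap of the KNS measure of the basilica Schreier graphs is attained
exactly at finite level, and its denominator is polynomially bounded in the inverse of the length
of the gap: a gap of length at least `2^(-q)` has its label in `2^(-(8 q + 40)) ℤ`. -/

open MeasureTheory Filter Topology Polynomial

open scoped ENNReal

namespace Pool.Agent.Results.MP_6db48f_an.FiniteLevels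

open Pool.Agent.R508.Bas
open Pool.Agent.Results.MP_6db48f_an.GapLabelsDyadic (IsKNS IsCounting supp IsGap kns_iff
  counting_iff Laplacian Lap_eq)

/-! ### spectral inclusion along the covering -/

theorem ev_lift (n : ℕ) (i : V n) : ∃ j : V (n + 1), ev (n + 1) j = ev n i := by
  classical
  have h1 := (herm n).mulVec_eigenvectorBasis i
  set v : V n → ℝ := ⇑((herm n).eigenvectorBasis i) with hv
  have hv0 : v ≠ 0 := by
    intro h0
    have h2 := (herm n).eigenvectorBasis.orthonormal.ne_zero i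
    apply h2
    ext w
    exact congrFun h0 w
  set g : V (n + 1) → ℝ := fun p => v (dr p) with hg
  have hg0 : g ≠ 0 := by
    intro h0
    apply hv0
    funext w
    have h3 := congrFun h0 (snocE n (w, true))
    have h4 : dr (snocE n (w, true)) = w := Subtype.ext (by simp [dr, snocE])
    rw [hg] at h3
    simp only [h4] at h3
    exact h3
  have hmul : (Del (n + 1)).mulVec g = (ev n i) • g := by
    funext p
    have h5 : (Del (n + 1)).mulVec g p = (Del n).mulVec v (dr p) := by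
      simp only [Matrix.mulVec, dotProduct]
      have h6 : ∀ w, Del n (dr p) w * v w = ∑ q, Del (n + 1) p q * ind (dr q = w) * v w := by
        intro w
        rw [← cov n p w, Finset.sum_mul]
      rw [Finset.sum_congr rfl fun w _ => h6 w, Finset.sum_comm]
      refine Finset.sum_congr rfl fun q _ => ?_
      rw [Finset.sum_eq_single (dr q)]
      · rw [ind_true rfl, mul_one]
      · intro w _ hw
        rw [ind_false (Ne.symm hw), mul_zero, zero_mul]
      · intro hf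
        exact absurd (Finset.mem_univ _) hf
    rw [h5, h1]
    rfl
  have hev : Module.End.HasEigenvector (Matrix.toLin' (Del (n + 1))) (ev n i) g := by
    refine ⟨?_, hg0⟩
    rw [Module.End.mem_eigenspace_iff, Matrix.toLin'_apply]
    exact hmul
  have hsp := (Module.End.hasEigenvalue_of_hasEigenvector hev).mem_spectrum
  rw [Matrix.spectrum_toLin', (herm (n + 1)).spectrum_real_eq_range_eigenvalues] at hsp
  exact hsp

theorem ev_lift_le (n m : ℕ) (h : n ≤ m) (i : V n) : ∃ j : V m, ev m j = ev n i := by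
  induction m, h using Nat.le_induction with
  | base => exact ⟨i, rfl⟩
  | succ m _ ih =>
    obtain ⟨j, hj⟩ := ih
    obtain ⟨k, hk⟩ := ev_lift m j
    exact ⟨k, hk.trans hj⟩

/-- every eigenvalue of every finite level lies in the support -/
theorem ev_supp (μ : ProbabilityMeasure ℝ) (hμ : Tendsto nu atTop (𝓝 μ)) (n : ℕ) (i : V n) :
    ev n i ∈ supp μ := by
  by_contra hx
  simp only [supp, Set.mem_ofPred_eq, not_forall] at hx
  obtain ⟨U, hU, hU1⟩ := hx
  have hU0 : (μ : Measure ℝ) U = 0 := by simpa using hU1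
  obtain ⟨ρ, hρ, hρU⟩ := Metric.mem_nhds_iff.1 hU
  set x := ev n i with hxd
  set r := min 1 (ρ / 2) with hrd
  have hr : 0 < r := lt_min one_pos (by linarith)
  have hr1 : r ≤ 1 := min_le_left _ _
  have hr2 : 2 * r ≤ ρ := by
    have : r ≤ ρ / 2 := min_le_right _ _
    linarith
  have hsub : Set.Ioo (x - 2 * r) (x + 2 * r) ⊆ U := by
    refine Set.Subset.trans ?_ hρU
    intro t ht
    rw [Metric.mem_ball, Real.dist_eq, abs_lt]
    constructor <;> linarith [ht.1, ht.2]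
  have h0 : (μ : Measure ℝ) (Set.Ioo (x - 2 * r) (x + 2 * r)) = 0 := measure_mono_null hsub hU0
  obtain ⟨m0, hm0⟩ := no_ev μ hμ x r hr hr1 h0
  obtain ⟨j, hj⟩ := ev_lift_le n (max n m0) (le_max_left _ _) i
  refine hm0 (max n m0) (le_max_right _ _) j ?_
  rw [hj, ← hxd]
  constructor <;> linarith

/-! ### quantitative approximation of the sign function -/

theorem grow (y : ℝ) (h0 : 0 ≤ y) (h1 : y ≤ 1) (k : ℕ) :
    2 / 5 ≤ (sp (2 * k)).eval y ∨ 2 ^ k * y ≤ (sp (2 * k)).eval y := by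
  induction k with
  | zero => right; simp [sp]
  | succ k ih =>
    have e : 2 * (k + 1) = (2 * k + 1) + 1 := by ring
    obtain ⟨a1, a2⟩ := sp_mem (2 * k) y h0 h1
    obtain ⟨b1, b2⟩ := sp_mem (2 * k + 1) y h0 h1
    have c1 := sp_eval (2 * k) y
    have c2 := sp_eval (2 * k + 1) y
    rw [e]
    set s := (sp (2 * k)).eval y
    set s1 := (sp (2 * k + 1)).eval y
    set s2 := (sp (2 * k + 1 + 1)).eval y
    have hs : 0 ≤ s := h0.trans a1
    have hs1 : 0 ≤ s1 := h0.trans b1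
    have m1 : s ≤ s1 := by
      rw [c1]
      nlinarith [mul_nonneg hs (sub_nonneg.2 a2),
        mul_nonneg hs (mul_nonneg hs (sub_nonneg.2 a2))]
    have m2 : s1 ≤ s2 := by
      rw [c2]
      nlinarith [mul_nonneg hs1 (sub_nonneg.2 b2),
        mul_nonneg hs1 (mul_nonneg hs1 (sub_nonneg.2 b2))]
    by_cases t1 : 2 / 5 ≤ s1
    · left; exact t1.trans m2
    push Not at t1
    have t0 : s < 2 / 5 := m1.trans_lt t1
    have ih' : 2 ^ k * y ≤ s := by
      rcases ih with h | h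
      · exact absurd h (not_le.2 t0)
      · exact h
    right
    have u1 : 1.42 * s ≤ s1 := by
      rw [c1]
      have : s ^ 2 ≤ (2 / 5) ^ 2 := pow_le_pow_left₀ hs t0.le 2
      nlinarith
    have u2 : 1.42 * s1 ≤ s2 := by
      rw [c2]
      have : s1 ^ 2 ≤ (2 / 5) ^ 2 := pow_le_pow_left₀ hs1 t1.le 2
      nlinarith
    rw [pow_succ]
    nlinarith

theorem near (p : ℕ) (y : ℝ) (hy : (2 / 5) * (1 / 2) ^ p ≤ y) (hy1 : y ≤ 1) (j : ℕ) :
    1 - (sp (2 * p + 2 + j)).eval y ≤ (1 / 2) ^ (2 ^ j) := by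
  have hp : (0 : ℝ) < (1 / 2) ^ p := by positivity
  have hy0 : 0 ≤ y := by linarith
  have hstart : 2 / 5 ≤ (sp (2 * p)).eval y := by
    rcases grow y hy0 hy1 p with h | h
    · exact h
    · refine le_trans ?_ h
      have e : (2 : ℝ) ^ p * (1 / 2) ^ p = 1 := by
        rw [← mul_pow]; norm_num
      have h2 : (2 : ℝ) ^ p * ((2 / 5) * (1 / 2) ^ p) ≤ 2 ^ p * y :=
        mul_le_mul_of_nonneg_left hy (by positivity)
      have h3 : (2 : ℝ) ^ p * ((2 / 5) * (1 / 2) ^ p) = 2 / 5 := by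
        rw [mul_left_comm, e, mul_one]
      linarith
  have hs2 : 2 / 3 ≤ (sp (2 * p + 2)).eval y := by
    obtain ⟨a1, a2⟩ := sp_mem (2 * p) y hy0 hy1
    obtain ⟨b1, b2⟩ := sp_mem (2 * p + 1) y hy0 hy1
    have c1 := sp_eval (2 * p) y
    have c2 := sp_eval (2 * p + 1) y
    have e : 2 * p + 2 = 2 * p + 1 + 1 := by ring
    rw [e]
    set s := (sp (2 * p)).eval y
    set s1 := (sp (2 * p + 1)).eval y
    set s2 := (sp (2 * p + 1 + 1)).eval y
    have u1 : 0.56 ≤ s1 := by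
      rw [c1]
      have h7 : 0 ≤ (s - 2 / 5) * (3 - s ^ 2 - 2 / 5 * s - 4 / 25) :=
        mul_nonneg (by linarith) (by nlinarith)
      nlinarith
    rw [c2]
    nlinarith [mul_nonneg (sub_nonneg.2 u1) (sub_nonneg.2 b2)]
  have hq : ∀ j, (3 / 2) * (1 - (sp (2 * p + 2 + j)).eval y) ≤ (1 / 2) ^ (2 ^ j) := by
    intro j
    induction j with
    | zero =>
      simp only [add_zero, pow_zero, pow_one]
      linarith
    | succ j ih =>
      obtain ⟨h2, h3⟩ := sp_mem (2 * p + 2 + j) y hy0 hy1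
      rw [← add_assoc, sp_eval, pow_succ 2 j, pow_mul]
      set s := (sp (2 * p + 2 + j)).eval y
      have h4 : 0 ≤ (3 / 2) * (1 - s) := by linarith
      have h5 : ((3 / 2) * (1 - s)) ^ 2 ≤ ((1 / 2) ^ 2 ^ j) ^ 2 := pow_le_pow_left₀ h4 ih 2
      refine le_trans ?_ h5
      have e : (3 / 2) * (1 - (3 * s - s ^ 3) / 2) = (3 / 2) * ((1 - s) ^ 2 * ((2 + s) / 2)) := by
        ring
      rw [e]
      nlinarith [sq_nonneg (1 - s)]
  have h2 := hq j
  obtain ⟨h3, h4⟩ := sp_mem (2 * p + 2 + j) y hy0 hy1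
  linarith

theorem far (p : ℕ) (y : ℝ) (hy : |y| ≤ 1) (j : ℕ) :
    ((2 / 5) * (1 / 2) ^ p ≤ y →
      1 - (1 / 2) ^ (2 ^ j) ≤ (sp (2 * p + 2 + j)).eval y ∧ (sp (2 * p + 2 + j)).eval y ≤ 1) ∧
    (y ≤ -((2 / 5) * (1 / 2) ^ p) → -1 ≤ (sp (2 * p + 2 + j)).eval y ∧
      (sp (2 * p + 2 + j)).eval y ≤ -(1 - (1 / 2) ^ (2 ^ j))) := by
  have hp : (0 : ℝ) < (1 / 2) ^ p := by positivity
  refine ⟨fun hδ => ?_, fun hδ => ?_⟩
  · have hy1 := (abs_le.1 hy).2
    have h2 := near p y hδ hy1 j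
    exact ⟨by linarith, (sp_mem _ y (by linarith) hy1).2⟩
  · have hy1 := (abs_le.1 hy).1
    have h2 := near p (-y) (by linarith) (by linarith) j
    have h3 := (sp_mem (2 * p + 2 + j) (-y) (by linarith) (by linarith)).2
    rw [sp_neg] at h2 h3
    exact ⟨by linarith, by linarith⟩

/-! ### arithmetic of the exponents -/

theorem arith0 (p : ℕ) : 144 * 9 ^ p * (4 * p + 16 + 2) ^ 2 < 2 ^ (4 * p + 16) := by
  induction p with
  | zero => norm_num
  | succ p ih =>
    have e1 : 2 ^ (4 * (p + 1) + 16) = 16 * 2 ^ (4 * p + 16) := by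
      rw [show 4 * (p + 1) + 16 = 4 + (4 * p + 16) by ring, pow_add]
      norm_num
    rw [e1, pow_succ]
    have h1 : 9 * (4 * (p + 1) + 16 + 2) ^ 2 ≤ 16 * (4 * p + 16 + 2) ^ 2 := by
      have h0 : 3 * (4 * (p + 1) + 16 + 2) ≤ 4 * (4 * p + 16 + 2) := by omega
      calc 9 * (4 * (p + 1) + 16 + 2) ^ 2 = (3 * (4 * (p + 1) + 16 + 2)) ^ 2 := by ring
        _ ≤ (4 * (4 * p + 16 + 2)) ^ 2 := Nat.pow_le_pow_left h0 2
        _ = 16 * (4 * p + 16 + 2) ^ 2 := by ring
    calc 144 * (9 ^ p * 9) * (4 * (p + 1) + 16 + 2) ^ 2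
        = 144 * 9 ^ p * (9 * (4 * (p + 1) + 16 + 2) ^ 2) := by ring
      _ ≤ 144 * 9 ^ p * (16 * (4 * p + 16 + 2) ^ 2) := Nat.mul_le_mul_left _ h1
      _ = 16 * (144 * 9 ^ p * (4 * p + 16 + 2) ^ 2) := by ring
      _ < 16 * 2 ^ (4 * p + 16) := Nat.mul_lt_mul_of_pos_left ih (by norm_num)

theorem arith1 (p h : ℕ) (hh : 4 * p + 16 ≤ h) : 144 * 9 ^ p * (h + 2) ^ 2 < 2 ^ h := by
  induction h, hh using Nat.le_induction with
  | base => exact arith0 p
  | succ h hh ih =>
    rw [pow_succ 2 h]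
    have h1 : (h + 1 + 2) ^ 2 ≤ 2 * (h + 2) ^ 2 := by nlinarith
    calc 144 * 9 ^ p * (h + 1 + 2) ^ 2 ≤ 144 * 9 ^ p * (2 * (h + 2) ^ 2) :=
          Nat.mul_le_mul_left _ h1
      _ = 2 * (144 * 9 ^ p * (h + 2) ^ 2) := by ring
      _ < 2 * 2 ^ h := Nat.mul_lt_mul_of_pos_left ih (by norm_num)
      _ = 2 ^ h * 2 := by ring

theorem arith (p m : ℕ) (hm : 8 * p + 32 ≤ m) :
    ∃ j : ℕ, 3 ^ (2 * p + 2 + j) < 2 ^ (m / 2) ∧ m + 3 < 2 ^ j := by
  refine ⟨Nat.log 2 (m + 3) + 1, ?_, Nat.lt_pow_succ_log_self (by norm_num) _⟩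
  set l := Nat.log 2 (m + 3) with hl
  have h1 : 2 ^ l ≤ m + 3 := Nat.pow_log_le_self 2 (by omega)
  have h2 : 3 ^ (l + 1) ≤ 4 * (m + 3) ^ 2 := by
    calc 3 ^ (l + 1) ≤ 4 ^ (l + 1) := Nat.pow_le_pow_left (by norm_num) _
      _ = 4 * (2 ^ l) ^ 2 := by
          rw [pow_succ, ← pow_mul, show (4 : ℕ) = 2 ^ 2 by norm_num, ← pow_mul]
          ring
      _ ≤ 4 * (m + 3) ^ 2 := Nat.mul_le_mul_left _ (Nat.pow_le_pow_left h1 2)
  have h3 : (m + 3) ^ 2 ≤ 4 * (m / 2 + 2) ^ 2 := by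
    have : m + 3 ≤ 2 * (m / 2 + 2) := by omega
    calc (m + 3) ^ 2 ≤ (2 * (m / 2 + 2)) ^ 2 := Nat.pow_le_pow_left this 2
      _ = 4 * (m / 2 + 2) ^ 2 := by ring
  have h4 := arith1 p (m / 2) (by omega)
  calc 3 ^ (2 * p + 2 + (l + 1)) = 9 * 9 ^ p * 3 ^ (l + 1) := by
        rw [pow_add, pow_add, pow_mul]
        norm_num
        ring
    _ ≤ 9 * 9 ^ p * (4 * (4 * (m / 2 + 2) ^ 2)) :=
        Nat.mul_le_mul_left _ (h2.trans (Nat.mul_le_mul_left _ h3))
    _ = 144 * 9 ^ p * (m / 2 + 2) ^ 2 := by ring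
    _ < 2 ^ (m / 2) := h4

/-! ### doubling of the counting function -/

theorem doubling' (p m : ℕ) (x r : ℝ) (hr : (1 / 2 : ℝ) ^ p ≤ r)
    (hm0 : ∀ m, ∀ i : V m, ¬ (x - r < ev m i ∧ ev m i < x + r)) (hm : 8 * p + 32 ≤ m) :
    Nx (m + 1) x = 2 * Nx m x := by
  classical
  have hN : ∀ n, (Nx n x : ℝ) = ∑ i : V n, (if ev n i ≤ x then (1 : ℝ) else 0) := by
    intro n
    unfold Nx
    rw [Finset.card_filter]
    push_cast
    rfl
  have hr0 : 0 < r := lt_of_lt_of_le (by positivity) hr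
  by_cases hx0 : x < 0
  · have h1 : ∀ n, Nx n x = 0 := by
      intro n
      unfold Nx
      rw [Finset.card_eq_zero, Finset.filter_eq_empty_iff]
      intro i _
      have := (ev_mem n i).1
      linarith
    rw [h1, h1]
  by_cases hx2 : 2 < x
  · have h1 : ∀ n, Nx n x = 2 ^ n := by
      intro n
      unfold Nx
      rw [Finset.filter_true_of_mem, Finset.card_univ, card_V]
      intro i _
      have := (ev_mem n i).2
      linarith
    rw [h1, h1, pow_succ]
    ring
  push Not at hx0 hx2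
  obtain ⟨j, hdeg, hexp⟩ := arith p m hm
  set k := 2 * p + 2 + j with hk
  set ε : ℝ := (1 / 2) ^ (2 ^ j) with hε
  have hε0 : 0 < ε := by positivity
  have hpp : (2 / 5 : ℝ) * (1 / 2) ^ p ≤ r / 2 := by
    have : (0 : ℝ) < (1 / 2) ^ p := by positivity
    linarith
  have key : ∀ n, ∀ i : V n,
      |(if ev n i ≤ x then (1 : ℝ) else 0) - (qp k 2 x).eval (ev n i)| ≤ ε := by
    intro n i
    have h1 := hm0 n i
    have h2 := ev_mem n i
    have h3 : |(ev n i - x) / 2| ≤ 1 := by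
      rw [abs_le]
      constructor <;> linarith [h2.1, h2.2]
    have h4 := far p _ h3 j
    rw [← hk, ← hε] at h4
    rw [qp_eval]
    set s := (sp k).eval ((ev n i - x) / 2)
    by_cases h5 : ev n i ≤ x
    · have h6 : ev n i ≤ x - r := by
        by_contra hc
        push Not at hc
        exact h1 ⟨hc, by linarith⟩
      obtain ⟨h8, h9⟩ := h4.2 (by linarith)
      rw [if_pos h5, abs_le]
      constructor <;> linarith
    · push Not at h5
      have h6 : x + r ≤ ev n i := by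
        by_contra hc
        push Not at hc
        exact h1 ⟨by linarith, hc⟩
      obtain ⟨h8, h9⟩ := h4.1 (by linarith)
      rw [if_neg (not_le.2 h5), abs_le]
      constructor <;> linarith
  have hsum : ∀ n, |(Nx n x : ℝ) - ∑ i, (qp k 2 x).eval (ev n i)| ≤ 2 ^ n * ε := by
    intro n
    rw [hN, ← Finset.sum_sub_distrib]
    refine (Finset.abs_sum_le_sum_abs _ _).trans ?_
    refine (Finset.sum_le_sum fun i _ => key n i).trans (le_of_eq ?_)
    rw [Finset.sum_const, Finset.card_univ, card_V, nsmul_eq_mul]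
    push_cast
    ring
  have h1 := hsum m
  have h2 := hsum (m + 1)
  have hq : (qp k 2 x).natDegree < 2 ^ (m / 2) := (qp_deg k 2 x).trans_lt hdeg
  rw [sum_poly_ev m _ hq] at h2
  set Q := ∑ i, (qp k 2 x).eval (ev m i)
  have h3 : |(Nx (m + 1) x : ℝ) - 2 * Nx m x| ≤ 2 ^ (m + 2) * ε := by
    have e : (Nx (m + 1) x : ℝ) - 2 * Nx m x
        = ((Nx (m + 1) x : ℝ) - 2 * Q) - 2 * ((Nx m x : ℝ) - Q) := by ring
    rw [e]
    refine (abs_sub _ _).trans ?_
    rw [abs_mul, abs_two]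
    have : (2 : ℝ) ^ (m + 2) * ε = 2 ^ (m + 1) * ε + 2 * (2 ^ m * ε) := by ring
    linarith
  have h4 : (2 : ℝ) ^ (m + 2) * ε < 1 := by
    have h5 : ε ≤ (1 / 2) ^ (m + 3) :=
      pow_le_pow_of_le_one (by norm_num) (by norm_num) hexp.le
    calc (2 : ℝ) ^ (m + 2) * ε ≤ 2 ^ (m + 2) * (1 / 2) ^ (m + 3) :=
          mul_le_mul_of_nonneg_left h5 (by positivity)
      _ = 1 / 2 := by
          rw [pow_succ (1 / 2 : ℝ) (m + 2), ← mul_assoc, ← mul_pow]
          norm_num
      _ < 1 := by norm_num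
  have h5 : |((Nx (m + 1) x : ℤ) - 2 * Nx m x : ℤ)| < 1 := by
    have h6 : ((|((Nx (m + 1) x : ℤ) - 2 * Nx m x : ℤ)| : ℤ) : ℝ) < 1 := by
      push_cast
      exact h3.trans_lt h4
    exact_mod_cast h6
  rw [Int.abs_lt_one_iff] at h5
  omega

/-- if there is no support point between `x` and `y`, the counting functions agree -/
theorem Nx_eq (μ : ProbabilityMeasure ℝ) (hμ : Tendsto nu atTop (𝓝 μ)) (n : ℕ) (x y : ℝ)
    (h : ∀ t, min x y ≤ t → t ≤ max x y → t ∉ supp μ) : Nx n x = Nx n y := by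
  classical
  unfold Nx
  congr 1
  refine Finset.filter_congr fun i _ => ?_
  constructor
  · intro h1
    by_contra h2
    push Not at h2
    exact h _ ((min_le_right x y).trans h2.le) (h1.trans (le_max_left x y)) (ev_supp μ hμ n i)
  · intro h1
    by_contra h2
    push Not at h2
    exact h _ ((min_le_left x y).trans h2.le) (h1.trans (le_max_right x y)) (ev_supp μ hμ n i)

/-- the level from which on the counting function is exact -/
theorem exact_level (μ : ProbabilityMeasure ℝ) (hμ : Tendsto nu atTop (𝓝 μ)) (U : Set ℝ)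
    (hU : U.OrdConnected) (hS : ∀ t ∈ U, t ∉ supp μ) (q : ℕ) (u v : ℝ)
    (huv : (1 / 2 : ℝ) ^ q ≤ v - u) (hsub : Set.Ioo u v ⊆ U) (x : ℝ) (hx : x ∈ U) (n : ℕ)
    (hn : 8 * q + 40 ≤ n) :
    ((μ : Measure ℝ) (Set.Iic x)).toReal = (Nx n x : ℝ) / 2 ^ n := by
  set c := (u + v) / 2 with hc
  set r := (v - u) / 2 with hrd
  have hq0 : (0 : ℝ) < (1 / 2) ^ q := by positivity
  have hr : (1 / 2 : ℝ) ^ (q + 1) ≤ r := by
    rw [pow_succ]
    linarith
  have hcU : c ∈ U := hsub ⟨by linarith, by linarith⟩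
  have hno : ∀ m, ∀ i : V m, ¬ (c - r < ev m i ∧ ev m i < c + r) := by
    intro m i hi
    refine hS _ (hsub ⟨?_, ?_⟩) (ev_supp μ hμ m i)
    · linarith [hi.1]
    · linarith [hi.2]
  have hdbl : ∀ m, 8 * q + 40 ≤ m → Nx (m + 1) c = 2 * Nx m c := fun m hm =>
    doubling' (q + 1) m c r hr hno (by omega)
  have hxc : ∀ m, Nx m x = Nx m c := by
    intro m
    refine Nx_eq μ hμ m x c fun t h1 h2 => hS t ?_
    exact hU.uIcc_subset hx hcU ⟨h1, h2⟩
  have hconst : ∀ m ≥ n, (Nx m x : ℝ) / 2 ^ m = (Nx n x : ℝ) / 2 ^ n := by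
    intro m hm
    induction m, hm using Nat.le_induction with
    | base => rfl
    | succ m hm ih =>
      rw [← ih, hxc, hxc, hdbl m (hn.trans hm), pow_succ]
      push_cast
      field_simp
  have hx0 := hS x hx
  simp only [supp, Set.mem_ofPred_eq, not_forall] at hx0
  obtain ⟨W, hW, hW1⟩ := hx0
  have hW0 : (μ : Measure ℝ) W = 0 := by simpa using hW1
  have hfr : (μ : Measure ℝ) (frontier (Set.Iic x)) = 0 := by
    rw [frontier_Iic]
    refine measure_mono_null ?_ hW0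
    intro t ht
    rw [Set.mem_singleton_iff] at ht
    subst ht
    exact mem_of_mem_nhds hW
  have h1 := ProbabilityMeasure.tendsto_measure_of_null_frontier_of_tendsto' hμ hfr
  have h2 : Tendsto (fun n => ((nu n : Measure ℝ) (Set.Iic x)).toReal) atTop
      (𝓝 ((μ : Measure ℝ) (Set.Iic x)).toReal) :=
    (ENNReal.tendsto_toReal (measure_ne_top _ _)).comp h1
  have h3 : Tendsto (fun n => ((nu n : Measure ℝ) (Set.Iic x)).toReal) atTop
      (𝓝 ((Nx n x : ℝ) / 2 ^ n)) := by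
    refine tendsto_const_nhds.congr' ?_
    filter_upwards [eventually_ge_atTop n] with m hm
    rw [nu_Iic, hconst m hm]
  exact tendsto_nhds_unique h2 h3

/-- a gap contains the open interval between its infimum and its supremum -/
theorem gap_facts (μ : ProbabilityMeasure ℝ) (U : Set ℝ) (hU : IsGap μ U) :
    U.OrdConnected ∧ (∀ t ∈ U, t ∉ supp μ) ∧ Set.Ioo (sInf U) (sSup U) ⊆ U ∧
      Metric.diam U = sSup U - sInf U := by
  obtain ⟨hb, x, hx, rfl⟩ := hU
  have hc : IsPreconnected (connectedComponentIn (supp μ)ᶜ x) :=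
    isPreconnected_connectedComponentIn
  have hne : (connectedComponentIn (supp μ)ᶜ x).Nonempty := ⟨x, mem_connectedComponentIn hx⟩
  refine ⟨hc.ordConnected, fun t ht => connectedComponentIn_subset _ _ ht, ?_, Real.diam_eq hb⟩
  exact IsConnected.Ioo_csInf_csSup_subset ⟨hne, hc⟩ hb.bddBelow hb.bddAbove

/-- The KNS measure `μ` exists. All eigenvalues of all finite levels lie in its support. If `U` is a
gap of length at least `2^(-q)` and `x` is in `U`, then for every level `n ≥ 8 q + 40` the label of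
`U` is exactly the fraction of eigenvalues of the Laplacian of `Γ_n` which are at most `x`; in
particular the label is a multiple of `2^(-(8 q + 40))`. -/
theorem result : (∃ μ : ProbabilityMeasure ℝ, IsKNS μ) ∧
    ∀ μ : ProbabilityMeasure ℝ, IsKNS μ →
      (∀ (n : ℕ) (h : (Laplacian n).IsHermitian)
        (i : Pool.Agent.Results.MP_6db48f_an.GapLabelsDyadic.V n), h.eigenvalues i ∈ supp μ) ∧
      (∀ U : Set ℝ, IsGap μ U → ∀ q : ℕ, (1 / 2 : ℝ) ^ q ≤ Metric.diam U → ∀ x ∈ U,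
        (∀ n : ℕ, 8 * q + 40 ≤ n → ∀ ρ : ProbabilityMeasure ℝ, IsCounting n ρ →
          (ρ : Measure ℝ) (Set.Iic x) = (μ : Measure ℝ) (Set.Iic x)) ∧
        ∃ j : ℕ, ((μ : Measure ℝ) (Set.Iic x)).toReal = j / 2 ^ (8 * q + 40)) := by
  refine ⟨?_, fun μ hμ => ⟨?_, ?_⟩⟩
  · obtain ⟨μ, hμ⟩ := exists_kns
    exact ⟨μ, (kns_iff μ).2 hμ⟩
  · intro n h i
    have key : ∀ (M : Matrix (V n) (V n) ℝ) (h : M.IsHermitian), M = Del n →
        h.eigenvalues i ∈ supp μ := by
      intro M h e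
      subst e
      exact ev_supp μ ((kns_iff μ).1 hμ) n i
    exact key _ h (Lap_eq n)
  · intro U hU q hq x hx
    obtain ⟨h1, h2, h3, h4⟩ := gap_facts μ U hU
    have hmain := fun n hn => exact_level μ ((kns_iff μ).1 hμ) U h1 h2 q (sInf U) (sSup U)
      (by rw [← h4]; exact hq) h3 x hx n hn
    refine ⟨fun n hn ρ hρ => ?_, ⟨Nx (8 * q + 40) x, hmain _ le_rfl⟩⟩
    rw [(counting_iff n ρ).1 hρ]
    refine (ENNReal.toReal_eq_toReal_iff' (measure_ne_top _ _) (measure_ne_top _ _)).1 ?_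
    rw [nu_Iic, hmain n hn]

end Pool.Agent.Results.MP_6db48f_an.FiniteLevels
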